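import Pool.Agent.Q74.BT.Stm2
import Pool.Agent.Q38.BT.Bot
import Pool.Agent.Q182.BT.Walk
import Pool.Agent.Q211.BT.LDup

/-!
# Project BT, part 5: tools (contraction times of the trajectories of a block)
-/

set_option autoImplicit false

namespace Pool.Agent.Q190.BT

open Finset
open Pool.Agent.Q158.Pair (T)
open Pool.Agent.Q74.AR (oc bE bE_mono bE_add bE_mul oc_per)
open Pool.Agent.Q74.KP (EE EE_mono EE_add EE_mul EE_const EE_sum EE_nonneg oc_add)
open Pool.Agent.Q74.BL (nx EE_oc)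
open Pool.Agent.H395R2.G3 (rr FF rr_spec rr_pos rr_lt_one)
open Pool.Agent.Q38.BT (wv wv_step wv_zero wv_nonneg GG GG_mean GG_nonneg GG_ge)
open Pool.Agent.Q74.BT

/-- polynomials against exponentials -/
theorem small (c K ε : ℝ) (hc : 0 < c) (hε : 0 < ε) (n : ℕ) :
    ∃ l₀ : ℝ, ∀ l : ℝ, l₀ ≤ l → K * (l + 1) ^ n * Real.exp (-(c * l)) ≤ ε := by
  have h1 := isLittleO_pow_exp_pos_mul_atTop n hc
  have h2 : Filter.Tendsto (fun l : ℝ => l ^ n / Real.exp (c * l)) Filter.atTop (nhds 0) :=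
    h1.tendsto_div_nhds_zero
  have h3 : Filter.Tendsto (fun l : ℝ => K * Real.exp c * ((l + 1) ^ n / Real.exp (c * (l + 1))))
      Filter.atTop (nhds (K * Real.exp c * 0)) :=
    (h2.comp (Filter.tendsto_atTop_add_const_right _ 1 Filter.tendsto_id)).const_mul _
  rw [mul_zero] at h3
  obtain ⟨l₀, hl₀⟩ := Filter.eventually_atTop.1 (h3.eventually (ge_mem_nhds hε))
  refine ⟨l₀, fun l hl => ?_⟩
  have h4 := hl₀ l hl
  refine le_trans (le_of_eq ?_) h4
  rw [mul_add, Real.exp_add, Real.exp_neg, mul_one]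
  field_simp

theorem oc_mono {i k : ℕ} (h : i ≤ k) (y : ℤ) : oc i y ≤ oc k y := by
  obtain ⟨d, rfl⟩ := Nat.exists_eq_add_of_le h
  rw [oc_add]
  exact Nat.le_add_right _ _

/-- averages of the number of odd terms at an earlier time -/
theorem EEk {k u : ℕ} (hk : k ≤ u) (F : ℕ → ℝ) (j : ℤ) : EE u (fun x => F (oc k (x + j))) = bE k F := by
  obtain ⟨v, rfl⟩ := Nat.exists_eq_add_of_le hk
  rw [Pool.Agent.Q182.BT.EE_up k v _ (fun x i => by
    rw [show x + 2 ^ k * i + j = (x + j) + 2 ^ k * i by ring, oc_per])]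
  have h := EE_oc k F 0 j
  simpa using h

/-- no contraction until the time `α log L` -/
theorem tilt_up {α : ℝ} (hα : 2 / Real.log (4 / 3) ≤ α) : ∃ C : ℝ, 0 < C ∧ ∀ L : ℕ, 2 ≤ L →
    ∀ u : ℕ, α * Real.log L ≤ u → ∀ j : ℤ,
    EE u (fun x => Set.indicator {x : ℤ | ∀ i : ℕ, (i : ℝ) ≤ α * Real.log L →
      (2 : ℝ) ^ i < 3 ^ oc i (x + j) * L} 1 x) ≤ C * (L : ℝ) ^ (α * FF (rr α) - 1) := by
  classical
  obtain ⟨C, hC, h⟩ := Pool.Agent.Q211.BT.up_one hα
  refine ⟨C, hC, fun L hL u hu j => ?_⟩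
  have hW : (2 : ℝ) ^ (α * Real.log L) ≤ ((2 ^ u : ℕ) : ℝ) := by
    push_cast
    rw [← Real.rpow_natCast]
    exact Real.rpow_le_rpow_of_exponent_le (by norm_num) hu
  have h1 := h L hL j (2 ^ u) hW
  set S : Set ℤ := {x : ℤ | j ≤ x ∧ x < j + ((2 ^ u : ℕ) : ℤ) ∧
      ∀ i : ℕ, (i : ℝ) ≤ α * Real.log L → (2 : ℝ) ^ i < 3 ^ oc i x * L} with hS
  have h2 : (∑ i ∈ range (2 ^ u), Set.indicator {x : ℤ | ∀ i : ℕ, (i : ℝ) ≤ α * Real.log L →
      (2 : ℝ) ^ i < 3 ^ oc i (x + j) * L} (1 : ℤ → ℝ) (i : ℤ)) ≤ S.ncard := by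
    set f : Finset ℕ := (range (2 ^ u)).filter (fun n : ℕ => ∀ i : ℕ, (i : ℝ) ≤ α * Real.log L →
      (2 : ℝ) ^ i < 3 ^ oc i ((n : ℤ) + j) * L) with hf
    have h3 : (∑ i ∈ range (2 ^ u), Set.indicator {x : ℤ | ∀ i : ℕ, (i : ℝ) ≤ α * Real.log L →
        (2 : ℝ) ^ i < 3 ^ oc i (x + j) * L} (1 : ℤ → ℝ) (i : ℤ)) = f.card := by
      rw [hf, Finset.card_filter]
      push_cast
      refine Finset.sum_congr rfl fun n _ => ?_
      rw [Set.indicator_apply]
      rfl
    rw [h3]
    have h4 : ((f.image (fun n : ℕ => (n : ℤ) + j) : Finset ℤ) : Set ℤ) ⊆ S := by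
      intro y hy
      rw [Finset.mem_coe, Finset.mem_image] at hy
      obtain ⟨n, hn, rfl⟩ := hy
      rw [hf, Finset.mem_filter, Finset.mem_range] at hn
      refine ⟨by omega, ?_, hn.2⟩
      have : (n : ℤ) < ((2 ^ u : ℕ) : ℤ) := by exact_mod_cast hn.1
      linarith
    have h5 : S.Finite := (Finset.finite_toSet (Finset.Ico j (j + ((2 ^ u : ℕ) : ℤ)))).subset (by
      intro y hy
      rw [Finset.mem_coe, Finset.mem_Ico]
      exact ⟨hy.1, hy.2.1⟩)
    have h6 := Set.ncard_le_ncard h4 h5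
    rw [Set.ncard_coe_finset, Finset.card_image_of_injective _ (by
      intro a b hab
      simpa using hab)] at h6
    exact_mod_cast h6
  unfold EE
  rw [div_le_iff₀ (by positivity)]
  push_cast at h1
  exact h2.trans h1

/-- contraction before the time `α log L`, in the range of few odd terms -/
theorem tilt_low {α : ℝ} (hα : 1 / Real.log 2 < α) (hα2 : α < 2 / Real.log (4 / 3)) (L : ℕ) (hL : 2 ≤ L)
    (u : ℕ) (hu : α * Real.log L ≤ u) (j : ℤ) :
    EE u (fun x => Set.indicator {x : ℤ | ∃ i : ℕ, (i : ℝ) < α * Real.log L ∧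
      3 ^ oc i (x + j) * (L : ℝ) ≤ 2 ^ i} 1 x) ≤
      (α * Real.log L + 1) * (L : ℝ) ^ (α * FF (rr α) - 1) := by
  classical
  have h43 := Pool.Agent.Q211.BT.log_four_thirds_pos
  have hl3 : 0 < Real.log 3 := Real.log_pos (by norm_num)
  have hl2 : 0 < Real.log 2 := Real.log_pos (by norm_num)
  have hα0 : 0 < α := lt_trans (by positivity) hα
  have hspec := rr_spec α
  have hr0 := rr_pos hα
  have hr1 := rr_lt_one hα0
  have hr2 : rr α < 1 / 2 := by
    have h1 : Real.log (4 / 3) / 2 < 1 / α := by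
      rw [lt_div_iff₀ hα0]
      rw [lt_div_iff₀ h43] at hα2
      linarith
    rw [Pool.Agent.Q211.BT.log_four_thirds] at h1
    unfold rr
    rw [div_lt_iff₀ hl3]
    linarith
  set r : ℝ := rr α with hrdef
  have h1r : 0 < 1 - r := by linarith
  set lam : ℝ := Real.log (1 - r) - Real.log r with hlam
  have hlam0 : 0 < lam := by
    rw [hlam, sub_pos]
    exact Real.log_lt_log hr0 (by linarith)
  have hL0 : (0 : ℝ) < L := by exact_mod_cast (by omega : 0 < L)
  set l : ℝ := Real.log L with hl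
  have hl0 : 0 ≤ l := Real.log_nonneg (by exact_mod_cast (by omega : 1 ≤ L))
  set b : ℝ := lam * Real.log 2 / Real.log 3 + Real.log ((1 + Real.exp (-lam)) / 2) with hb
  have hb0 : 0 ≤ b := by
    have h1 : -lam / 2 ≤ Real.log ((1 + Real.exp (-lam)) / 2) := by
      rw [Real.le_log_iff_exp_le (by positivity)]
      have h2 : Real.exp (-lam) = Real.exp (-lam / 2) ^ 2 := by
        rw [← Real.exp_nat_mul]
        congr 1
        push_cast
        ring
      rw [h2]
      nlinarith [sq_nonneg (Real.exp (-lam / 2) - 1)]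
    have h2 : lam / 2 ≤ lam * Real.log 2 / Real.log 3 := by
      rw [div_le_div_iff₀ (by norm_num) hl3]
      have := Pool.Agent.Q38.BT.log32
      nlinarith
    rw [hb]
    linarith
  have hid : α * b - lam / Real.log 3 = α * FF r - 1 := by
    have e1 : Real.log ((1 + Real.exp (-lam)) / 2) = -Real.log 2 - Real.log (1 - r) := by
      have e2 : Real.exp (-lam) = r / (1 - r) := by
        rw [hlam, neg_sub, Real.exp_sub, Real.exp_log hr0, Real.exp_log h1r]
      have e3 : (1 + Real.exp (-lam)) / 2 = (2 * (1 - r))⁻¹ := by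
        rw [e2]
        field_simp
        ring
      rw [e3, Real.log_inv, Real.log_mul (by norm_num) h1r.ne']
      ring
    have e4 : α * (Real.log 2 - r * Real.log 3) = 1 := by
      rw [← hspec]
      field_simp
    have e5 : α * (lam * Real.log 2 / Real.log 3) - lam / Real.log 3 = α * (lam * r) := by
      have e6 : α * Real.log 2 = 1 + α * r * Real.log 3 := by linarith
      have e7 : α * (lam * Real.log 2 / Real.log 3) = lam * (α * Real.log 2) / Real.log 3 := by ring
      rw [e7, e6]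
      field_simp
      ring
    have e8 : FF r = -(r * Real.log r) - (1 - r) * Real.log (1 - r) - r * Real.log 3 := by
      unfold FF
      rw [Real.binEntropy, Real.log_inv, Real.log_inv]
      ring
    rw [hb, e1, mul_add, add_sub_right_comm, e5, e8]
    have e9 : α * (-(r * Real.log r) - (1 - r) * Real.log (1 - r) - r * Real.log 3) - 1 =
        α * (-(r * Real.log r) - (1 - r) * Real.log (1 - r) - r * Real.log 3) -
          α * (Real.log 2 - r * Real.log 3) := by rw [e4]
    rw [e9, hlam]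
    ring
  set N : ℕ := ⌊α * l⌋₊ + 1 with hN
  -- the pointwise bound
  have key : ∀ x : ℤ, Set.indicator {x : ℤ | ∃ i : ℕ, (i : ℝ) < α * l ∧
      3 ^ oc i (x + j) * (L : ℝ) ≤ 2 ^ i} (1 : ℤ → ℝ) x ≤
      ∑ i ∈ (range N).filter (fun i => i ≤ u), Real.exp (lam * ((i * Real.log 2 - l) / Real.log 3)) *
        Real.exp (-lam * (oc i (x + j) : ℝ)) := by
    intro x
    rw [Set.indicator_apply]
    split_ifs with hx
    swap
    · exact sum_nonneg fun i _ => by positivity
    obtain ⟨i, hi, hi2⟩ := hx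
    have hiN : i ∈ (range N).filter (fun i => i ≤ u) := by
      rw [mem_filter, mem_range]
      constructor
      · rw [hN]
        have := (Nat.le_floor_iff (by positivity)).2 hi.le
        omega
      · have : (i : ℝ) ≤ u := hi.le.trans hu
        exact_mod_cast this
    refine le_trans ?_ (single_le_sum (f := fun i : ℕ =>
      Real.exp (lam * ((i * Real.log 2 - l) / Real.log 3)) *
        Real.exp (-lam * (oc i (x + j) : ℝ))) (fun i _ => by positivity) hiN)
    rw [Pi.one_apply, ← Real.exp_add]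
    apply Real.one_le_exp
    have h3 := Real.log_le_log (by positivity) hi2
    rw [Real.log_pow, Real.log_mul (by positivity) hL0.ne', Real.log_pow, ← hl] at h3
    have h4 : (oc i (x + j) : ℝ) ≤ (i * Real.log 2 - l) / Real.log 3 := by
      rw [le_div_iff₀ hl3]
      linarith
    nlinarith
  refine (EE_mono u key).trans ?_
  rw [EE_sum]
  have h5 : ∀ i ∈ (range N).filter (fun i => i ≤ u), EE u (fun x => Real.exp (lam * ((i * Real.log 2 - l) / Real.log 3)) *
        Real.exp (-lam * (oc i (x + j) : ℝ))) ≤ (L : ℝ) ^ (α * FF r - 1) := by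
    intro i hi
    rw [mem_filter, mem_range] at hi
    rw [EE_mul, EEk hi.2 (fun m => Real.exp (-lam * (m : ℝ))), Pool.Agent.Q182.BT.bE_exp]
    have h6 : (i : ℝ) ≤ α * l := by
      have : i ≤ ⌊α * l⌋₊ := by omega
      exact (Nat.le_floor_iff (by positivity)).1 this
    have h7 : ((1 + Real.exp (-lam)) / 2) ^ i = Real.exp (i * Real.log ((1 + Real.exp (-lam)) / 2)) := by
      rw [Real.exp_nat_mul, Real.exp_log (by positivity)]
    rw [h7, ← Real.exp_add, Real.rpow_def_of_pos hL0, ← hl, ← hid]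
    apply Real.exp_le_exp.2
    have h8 : lam * ((i * Real.log 2 - l) / Real.log 3) + i * Real.log ((1 + Real.exp (-lam)) / 2) =
        i * b - lam / Real.log 3 * l := by
      rw [hb]
      field_simp
      ring
    rw [h8]
    nlinarith
  refine (Finset.sum_le_sum h5).trans ?_
  rw [Finset.sum_const, nsmul_eq_mul]
  refine mul_le_mul_of_nonneg_right ?_ (by positivity)
  have h9 : (((range N).filter (fun i => i ≤ u)).card : ℝ) ≤ N := by
    have := Finset.card_filter_le (range N) (fun i => i ≤ u)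
    rw [card_range] at this
    exact_mod_cast this
  refine h9.trans ?_
  rw [hN]
  push_cast
  have := Nat.floor_le (show 0 ≤ α * l by positivity)
  linarith

/-- the offset at the contraction time -/
theorem wv_tau (x : ℤ) (j : ℕ) (k : ℕ) (X : ℝ) (hX : 0 < X)
    (h : ∀ i < k, (2 : ℝ) ^ i < 3 ^ oc i (x + j) * X) :
    wv x (x + j) k ≤ 3 ^ oc k (x + j) / 2 ^ k * (j + X * k / 3) := by
  induction k with
  | zero =>
    rw [wv_zero]
    simp [oc]
  | succ k ih =>
    have ih' := ih fun i hi => h i (by omega)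
    have hk := h k (by omega)
    rcases wv_step x (x + j) k with ⟨h1, h2⟩ | ⟨h1, h2⟩
    · rw [h1, h2]
      have h3 : (0 : ℝ) ≤ 3 ^ oc k (x + j) / 2 ^ k * (X / 3) := by positivity
      calc wv x (x + j) k / 2 ≤ 3 ^ oc k (x + j) / 2 ^ k * (j + X * k / 3) / 2 := by linarith
        _ ≤ (3 ^ oc k (x + j) / 2 ^ k * (j + X * k / 3) + 3 ^ oc k (x + j) / 2 ^ k * (X / 3)) / 2 := by
          linarith
        _ = 3 ^ oc k (x + j) / 2 ^ (k + 1) * (j + X * ((k + 1 : ℕ) : ℝ) / 3) := by
          push_cast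
          rw [pow_succ]
          field_simp
          ring
    · rw [h1, h2]
      have h4 : 1 ≤ 3 * (3 ^ oc k (x + j) / 2 ^ k) * (X / 3) := by
        have h5 : 1 ≤ 3 ^ oc k (x + j) * X / 2 ^ k := by
          rw [le_div_iff₀ (by positivity)]
          linarith
        calc (1 : ℝ) ≤ 3 ^ oc k (x + j) * X / 2 ^ k := h5
          _ = _ := by ring
      calc (3 * wv x (x + j) k + 1) / 2
          ≤ (3 * (3 ^ oc k (x + j) / 2 ^ k * (j + X * k / 3)) + 3 * (3 ^ oc k (x + j) / 2 ^ k) * (X / 3)) / 2 := by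
            linarith
        _ = 3 ^ (oc k (x + j) + 1) / 2 ^ (k + 1) * (j + X * ((k + 1 : ℕ) : ℝ) / 3) := by
          push_cast
          rw [pow_succ, pow_succ]
          field_simp
          ring

/-- the two sided test function -/
noncomputable def ph (s h : ℝ) (v m : ℕ) : ℝ :=
  Real.exp (s * ((v : ℝ) / 2 - h - m)) + Real.exp (-s * ((v : ℝ) / 2 - (-h) - m))

theorem ph_nonneg (s h : ℝ) (v m : ℕ) : 0 ≤ ph s h v m := by
  unfold ph
  positivity

theorem ph_ge {s h : ℝ} (hs : 0 ≤ s) {v m : ℕ} (hm : h ≤ |(m : ℝ) - v / 2|) : 1 ≤ ph s h v m := by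
  unfold ph
  rcases le_abs.1 hm with h1 | h1
  · have h2 : 1 ≤ Real.exp (-s * ((v : ℝ) / 2 - (-h) - m)) := by
      apply Real.one_le_exp
      nlinarith
    have := Real.exp_pos (s * ((v : ℝ) / 2 - h - m))
    linarith
  · have h2 : 1 ≤ Real.exp (s * ((v : ℝ) / 2 - h - m)) := by
      apply Real.one_le_exp
      nlinarith
    have := Real.exp_pos (-s * ((v : ℝ) / 2 - (-h) - m))
    linarith

theorem bE_ph (s h : ℝ) (v : ℕ) : bE v (ph s h v) ≤ 2 * Real.exp (-(s * h) + s ^ 2 * v / 8) := by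
  have h1 := Pool.Agent.Q38.BT.bE_exp v s h
  have h2 := Pool.Agent.Q38.BT.bE_exp v (-s) (-h)
  have h3 : bE v (ph s h v) = bE v (fun m => Real.exp (s * ((v : ℝ) / 2 - h - m))) +
      bE v (fun m => Real.exp (-s * ((v : ℝ) / 2 - (-h) - m))) :=
    bE_add v (fun m => Real.exp (s * ((v : ℝ) / 2 - h - m))) _
  rw [h3]
  have e : -(-s * -h) + (-s) ^ 2 * (v : ℝ) / 8 = -(s * h) + s ^ 2 * v / 8 := by ring
  rw [e] at h2
  linarith

end Pool.Agent.Q190.BT
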