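import Pool.Agent.Q74.BT.Stm5
import Pool.Agent.Q190.BT.Tools

/-!
# Project BT, part 5: popular forms have displacement in the segment
-/

set_option autoImplicit false

namespace Pool.Agent.Q190.BT

open Finset
open Pool.Agent.Q158.Pair (T)
open Pool.Agent.Q74.AR (oc bE bE_mono bE_add bE_mul oc_per)
open Pool.Agent.Q74.KP (EE EE_mono EE_add EE_mul EE_const EE_sum EE_nonneg oc_add)
open Pool.Agent.Q74.BL (nx EE_oc)
open Pool.Agent.H395R2.G3 (rr FF rr_spec rr_pos rr_lt_one)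
open Pool.Agent.Q38.BT (wv wv_step wv_zero wv_nonneg GG GG_mean GG_nonneg GG_ge)
open Pool.Agent.Q74.BT

theorem xx_eq {α : ℝ} (hα : 0 < α) :
    xx α = α * (Real.log 2 / Real.log 3 - 1 / 2) - 1 / Real.log 3 := by
  have hl3 : 0 < Real.log 3 := Real.log_pos (by norm_num)
  unfold xx rr
  field_simp
  ring

theorem log_half : 1 / 2 < Real.log 2 / Real.log 3 := by
  have hl3 : 0 < Real.log 3 := Real.log_pos (by norm_num)
  have h := Pool.Agent.Q211.BT.log_four_thirds_pos
  rw [Pool.Agent.Q211.BT.log_four_thirds] at h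
  rw [div_lt_div_iff₀ (by norm_num) hl3]
  linarith

theorem log_quot_lt_one : Real.log 2 / Real.log 3 < 1 := by
  have hl3 : 0 < Real.log 3 := Real.log_pos (by norm_num)
  rw [div_lt_one hl3]
  exact Real.log_lt_log (by norm_num) (by norm_num)

/-- **JOB ManyUp** -/
theorem manyUp : S_ManyUp := by
  classical
  intro γ hγ α₁ α₂ σ hR h1σ h2σ η hη
  obtain ⟨hR1, hR2, hR3, hR4⟩ := hR
  have hl3 : 0 < Real.log 3 := Real.log_pos (by norm_num)
  have hl2 : 0 < Real.log 2 := Real.log_pos (by norm_num)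
  have h43 := Pool.Agent.Q211.BT.log_four_thirds_pos
  have hα1 : 0 < α₁ := lt_trans (by positivity) hR1
  have hα2 : 0 < α₂ := lt_trans (by positivity) hR3
  obtain ⟨C, hC, hup⟩ := tilt_up hR3.le
  obtain ⟨l1, hl1⟩ := small (σ - th α₂) C (η / 3) (by linarith) (by positivity) 0
  obtain ⟨l2, hl2'⟩ := small (σ - th α₁) (α₁ + 1) (η / 3) (by linarith) (by positivity) 1
  obtain ⟨l3, hl3'⟩ := small (η ^ 2 / 86) (2 * 43 ^ 3) (η / 3) (by positivity) (by positivity) 3
  set l₀ : ℝ := max (max l1 l2) (max l3 (max (2 / η) 1)) with hl₀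
  obtain ⟨L₀, hL₀⟩ := exists_nat_ge (Real.exp l₀)
  refine ⟨max L₀ 2, fun L hL u hu1 hu2 => ?_⟩
  have hL2 : 2 ≤ L := (le_max_right _ _).trans hL
  have hL0 : (0 : ℝ) < L := by exact_mod_cast (by omega : 0 < L)
  set l : ℝ := Real.log L with hl
  have hll : l₀ ≤ l := by
    have h1 : Real.exp l₀ ≤ L := hL₀.trans (by exact_mod_cast (le_max_left _ _).trans hL)
    have h2 := Real.log_le_log (Real.exp_pos _) h1
    rwa [Real.log_exp] at h2
  have hlA : l1 ≤ l := ((le_max_left _ _).trans (le_max_left _ _)).trans hll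
  have hlB : l2 ≤ l := ((le_max_right _ _).trans (le_max_left _ _)).trans hll
  have hlC : l3 ≤ l := ((le_max_left _ _).trans (le_max_right _ _)).trans hll
  have hlD : 2 / η ≤ l :=
    ((le_max_left _ _).trans ((le_max_right _ _).trans (le_max_right _ _))).trans hll
  have hlE : 1 ≤ l :=
    ((le_max_right _ _).trans ((le_max_right _ _).trans (le_max_right _ _))).trans hll
  have hl0 : 0 < l := by linarith
  have hηl : 1 ≤ η / 2 * l := by
    rw [div_le_iff₀ hη] at hlD
    linarith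
  set h : ℝ := η / 2 * l with hh
  set s : ℝ := 2 * η / 43 with hs
  have hs0 : 0 < s := by positivity
  -- the two counting functions
  set E1 : ℕ → Set ℤ := fun j => {x : ℤ | ∀ i : ℕ, (i : ℝ) ≤ α₂ * l →
      (2 : ℝ) ^ i < 3 ^ oc i (x + j) * L} with hE1
  set E2 : ℕ → Set ℤ := fun j => {x : ℤ | ∃ i : ℕ, (i : ℝ) < α₁ * l ∧
      3 ^ oc i (x + j) * (L : ℝ) ≤ 2 ^ i} with hE2
  set f3 : ℤ → ℝ := fun x => ∑ k ∈ range (u + 1), GG (ph s h (u - k)) (u + 1) u k x with hf3
  have hf3nn : ∀ x, 0 ≤ f3 x := fun x =>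
    sum_nonneg fun k _ => GG_nonneg (fun m => ph_nonneg s h (u - k) m) (u + 1) u k x
  set S : Set ℤ := {x : ℤ | ∃ z ∈ VV L u x, (L : ℝ) ^ σ ≤ mu L u x z ∧
    ¬ ((xx α₁ - η) * l ≤ (z.1 : ℝ) - u / 2 ∧ (z.1 : ℝ) - u / 2 ≤ (xx α₂ + η) * l)} with hS
  have hLσ : 0 < (L : ℝ) ^ σ := Real.rpow_pos_of_pos hL0 _
  -- the pointwise bound
  have key : ∀ x : ℤ, Set.indicator S (1 : ℤ → ℝ) x ≤
      ((L : ℝ) ^ σ)⁻¹ * ∑ j ∈ range L, (Set.indicator (E1 j) (1 : ℤ → ℝ) x + Set.indicator (E2 j) (1 : ℤ → ℝ) x) +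
        f3 x := by
    intro x
    have hnn : 0 ≤ ∑ j ∈ range L, (Set.indicator (E1 j) (1 : ℤ → ℝ) x + Set.indicator (E2 j) (1 : ℤ → ℝ) x) :=
      sum_nonneg fun j _ => add_nonneg (Set.indicator_nonneg (fun _ _ => zero_le_one) _)
        (Set.indicator_nonneg (fun _ _ => zero_le_one) _)
    rw [Set.indicator_apply]
    split_ifs with hx
    swap
    · exact add_nonneg (mul_nonneg (inv_nonneg.2 hLσ.le) hnn) (hf3nn x)
    rw [Pi.one_apply]
    obtain ⟨z, hz, hmu, hzl⟩ := hx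
    by_cases hbig : (L : ℝ) ^ σ ≤ ∑ j ∈ range L, (Set.indicator (E1 j) (1 : ℤ → ℝ) x + Set.indicator (E2 j) (1 : ℤ → ℝ) x)
    · have h1 : 1 ≤ ((L : ℝ) ^ σ)⁻¹ * ∑ j ∈ range L, (Set.indicator (E1 j) (1 : ℤ → ℝ) x + Set.indicator (E2 j) (1 : ℤ → ℝ) x) := by
        rw [inv_mul_eq_div, le_div_iff₀ hLσ, one_mul]
        exact hbig
      have h2 := hf3nn x
      linarith
    push Not at hbig
    -- a good trajectory in the popular form
    obtain ⟨j, hjL, hjz, hj1, hj2⟩ : ∃ j : ℕ, j < L ∧ nx u x (0, (j : ℤ)) = z ∧ x ∉ E1 j ∧ x ∉ E2 j := by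
      by_contra hc
      push Not at hc
      have h1 : ((mu L u x z : ℕ) : ℝ) ≤ ∑ j ∈ range L, (Set.indicator (E1 j) (1 : ℤ → ℝ) x + Set.indicator (E2 j) (1 : ℤ → ℝ) x) := by
        unfold mu
        rw [Finset.card_filter]
        push_cast
        refine Finset.sum_le_sum fun j hj => ?_
        rw [mem_range] at hj
        have hb1 : 0 ≤ Set.indicator (E1 j) (1 : ℤ → ℝ) x := Set.indicator_nonneg (fun _ _ => zero_le_one) _
        have hb2 : 0 ≤ Set.indicator (E2 j) (1 : ℤ → ℝ) x := Set.indicator_nonneg (fun _ _ => zero_le_one) _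
        split_ifs with hjz
        · by_cases h3 : x ∈ E1 j
          · rw [Set.indicator_of_mem h3, Pi.one_apply]
            linarith
          · have h4 := hc j hj hjz h3
            rw [Set.indicator_of_mem h4, Pi.one_apply]
            linarith
        · linarith
      linarith
    rw [hE1] at hj1
    rw [hE2] at hj2
    simp only [Set.mem_ofPred_eq, not_forall, not_lt] at hj1
    simp only [Set.mem_ofPred_eq, not_exists, not_and, not_le] at hj2
    obtain ⟨i, hi1, hi2⟩ := hj1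
    have hex : ∃ i : ℕ, 3 ^ oc i (x + j) * (L : ℝ) ≤ 2 ^ i := ⟨i, hi2⟩
    set k : ℕ := Nat.find hex with hk
    have hk1 : 3 ^ oc k (x + j) * (L : ℝ) ≤ 2 ^ k := Nat.find_spec hex
    have hk2 : ∀ i < k, (2 : ℝ) ^ i < 3 ^ oc i (x + j) * L := by
      intro i hi
      have := Nat.find_min hex hi
      push Not at this
      exact this
    have hki : k ≤ i := Nat.find_min' hex hi2
    have hkα : (k : ℝ) ≤ α₂ * l := le_trans (by exact_mod_cast hki) hi1
    have hku : k ≤ u := by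
      have : (k : ℝ) ≤ u := hkα.trans hu1
      exact_mod_cast this
    have hkα1 : α₁ * l ≤ k := by
      by_contra hc
      push Not at hc
      exact absurd hk1 (not_le.2 (hj2 k hc))
    have hk0 : k ≠ 0 := by
      intro h0
      rw [h0] at hkα1
      have : 0 < α₁ * l := by positivity
      push_cast at hkα1
      linarith
    obtain ⟨k', hk'⟩ := Nat.exists_eq_succ_of_ne_zero hk0
    -- the level at the time k
    have ha1 : (oc k (x + j) : ℝ) * Real.log 3 + l ≤ k * Real.log 2 := by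
      have h3 := Real.log_le_log (by positivity) hk1
      rw [Real.log_pow, Real.log_mul (by positivity) hL0.ne', Real.log_pow, ← hl] at h3
      exact h3
    have ha2 : (k : ℝ) * Real.log 2 - Real.log 2 < (oc k (x + j) : ℝ) * Real.log 3 + l := by
      have h3 := hk2 k' (by omega)
      have h4 : (3 : ℝ) ^ oc k' (x + j) * L ≤ 3 ^ oc k (x + j) * L := by
        have := oc_mono (show k' ≤ k by omega) (x + (j : ℤ))
        gcongr
        norm_num
      have h5 := Real.log_lt_log (by positivity) (lt_of_lt_of_le h3 h4)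
      rw [Real.log_pow, Real.log_mul (by positivity) hL0.ne', Real.log_pow, ← hl] at h5
      have hkk : (k : ℝ) = k' + 1 := by
        rw [hk']
        push_cast
        rfl
      have hkm : (k : ℝ) * Real.log 2 = k' * Real.log 2 + Real.log 2 := by
        rw [hkk]
        ring
      linarith
    set a : ℝ := (oc k (x + j) : ℝ) with ha
    set q : ℝ := Real.log 2 / Real.log 3 with hq
    have hq1 : 1 / 2 < q := log_half
    have hq2 : q < 1 := log_quot_lt_one
    have ha3 : a ≤ k * q - l * (1 / Real.log 3) := by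
      have : a * Real.log 3 ≤ (k * q - l * (1 / Real.log 3)) * Real.log 3 := by
        rw [hq]
        field_simp
        linarith
      exact le_of_mul_le_mul_right this hl3
    have ha4 : k * q - l * (1 / Real.log 3) - 1 ≤ a := by
      have h5 : (k * q - l * (1 / Real.log 3) - q) * Real.log 3 ≤ a * Real.log 3 := by
        rw [hq]
        field_simp
        linarith
      have := le_of_mul_le_mul_right h5 hl3
      linarith
    have ha5 : a - k / 2 ≤ xx α₂ * l := by
      rw [xx_eq hα2, ← hq]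
      nlinarith
    have ha6 : xx α₁ * l - 1 ≤ a - k / 2 := by
      rw [xx_eq hα1, ← hq]
      nlinarith
    -- the final level
    have hz1 : (z.1 : ℝ) = a + (oc (u - k) (T^[k] (x + j)) : ℝ) := by
      have e1 : z.1 = oc u (x + j) := by
        rw [← hjz]
        unfold nx
        rw [pow_zero, one_mul, zero_add]
      have e2 := oc_add k (u - k) (x + (j : ℤ))
      rw [show k + (u - k) = u by omega] at e2
      rw [e1, e2]
      push_cast
      rfl
    have hdev : h ≤ |((oc (u - k) (T^[k] (x + j)) : ℕ) : ℝ) - ((u - k : ℕ) : ℝ) / 2| := by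
      by_contra hc
      push Not at hc
      rw [abs_lt, Nat.cast_sub hku] at hc
      apply hzl
      rw [hz1]
      constructor
      · have : xx α₁ * l - 1 - h ≤ a - k / 2 + ((oc (u - k) (T^[k] (x + j)) : ℝ) - ((u : ℝ) - k) / 2) := by
          linarith [hc.1]
        nlinarith
      · have : a - k / 2 + ((oc (u - k) (T^[k] (x + j)) : ℝ) - ((u : ℝ) - k) / 2) ≤ xx α₂ * l + h := by
          linarith [hc.2]
        nlinarith
    -- the deviation is covered
    have hw : wv x (x + j) k ≤ ((u + 1 : ℕ) : ℝ) := by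
      have h6 := wv_tau x j k L hL0 hk2
      have h7 : (3 : ℝ) ^ oc k (x + j) / 2 ^ k ≤ 1 / L := by
        rw [div_le_div_iff₀ (by positivity) hL0]
        linarith
      have h8 : (j : ℝ) ≤ L := by exact_mod_cast hjL.le
      have h9 : (3 : ℝ) ^ oc k (x + j) / 2 ^ k * (j + L * k / 3) ≤ 1 / L * (L + L * k / 3) := by
        gcongr
      have h10 : 1 / (L : ℝ) * (L + L * k / 3) = 1 + k / 3 := by
        field_simp
      have h11 : (k : ℝ) ≤ u := by exact_mod_cast hku
      have h12 : (0 : ℝ) ≤ k := Nat.cast_nonneg k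
      push_cast
      linarith
    have hcov : 1 ≤ f3 x := by
      have h13 := GG_ge (fun m => ph_nonneg s h (u - k) m) (u + 1) u k hku x j hw
      have h14 := ph_ge hs0.le hdev
      have h15 : GG (ph s h (u - k)) (u + 1) u k x ≤ f3 x :=
        single_le_sum (f := fun k => GG (ph s h (u - k)) (u + 1) u k x)
          (fun k _ => GG_nonneg (fun m => ph_nonneg s h (u - k) m) (u + 1) u k x)
          (mem_range.2 (by omega))
      linarith
    have := mul_nonneg (inv_nonneg.2 hLσ.le) hnn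
    linarith
  refine (EE_mono u key).trans ?_
  rw [EE_add u (fun x => ((L : ℝ) ^ σ)⁻¹ * ∑ j ∈ range L, (Set.indicator (E1 j) (1 : ℤ → ℝ) x + Set.indicator (E2 j) (1 : ℤ → ℝ) x)),
    EE_mul, EE_sum]
  have hb1 : ∀ j ∈ range L, EE u (fun x => Set.indicator (E1 j) (1 : ℤ → ℝ) x + Set.indicator (E2 j) (1 : ℤ → ℝ) x) ≤
      C * (L : ℝ) ^ (th α₂ - 1) + (α₁ * l + 1) * (L : ℝ) ^ (th α₁ - 1) := by
    intro j _
    rw [EE_add u (fun x => Set.indicator (E1 j) (1 : ℤ → ℝ) x)]
    refine add_le_add (hup L hL2 u hu1 j) (tilt_low hR1 hR2 L hL2 u ?_ j)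
    refine le_trans ?_ hu1
    have : α₁ ≤ α₂ := (hR2.trans hR3).le
    exact mul_le_mul_of_nonneg_right this hl0.le
  have hb2 := Finset.sum_le_sum hb1
  rw [Finset.sum_const, card_range, nsmul_eq_mul] at hb2
  have hb3 : EE u f3 ≤ 2 * 43 ^ 3 * (l + 1) ^ 3 * Real.exp (-(η ^ 2 / 86 * l)) := by
    rw [hf3, EE_sum]
    have h1 : ∀ k ∈ range (u + 1), EE u (GG (ph s h (u - k)) (u + 1) u k) ≤
        ((u : ℝ) + 1) * (((u : ℝ) + 2) * (2 * Real.exp (-(η ^ 2 / 86 * l)))) := by
      intro k hk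
      rw [mem_range] at hk
      rw [GG_mean _ (u + 1) u k (by omega)]
      have h2 := bE_ph s h (u - k)
      have h3 : -(s * h) + s ^ 2 * ((u - k : ℕ) : ℝ) / 8 ≤ -(η ^ 2 / 86 * l) := by
        have h4 : ((u - k : ℕ) : ℝ) ≤ 43 * l := by
          refine le_trans ?_ hu2
          exact_mod_cast Nat.sub_le u k
        have h5 : s ^ 2 * ((u - k : ℕ) : ℝ) ≤ s ^ 2 * (43 * l) :=
          mul_le_mul_of_nonneg_left h4 (by positivity)
        have h6 : -(s * h) + s ^ 2 * (43 * l) / 8 = -(η ^ 2 / 86 * l) := by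
          rw [hs, hh]
          ring
        linarith
      have h7 : bE (u - k) (ph s h (u - k)) ≤ 2 * Real.exp (-(η ^ 2 / 86 * l)) :=
        h2.trans (mul_le_mul_of_nonneg_left (Real.exp_le_exp.2 h3) (by norm_num))
      have h8 : ((k + 1 : ℕ) : ℝ) ≤ (u : ℝ) + 1 := by exact_mod_cast hk
      have h9 : ((u + 1 + 1 : ℕ) : ℝ) = (u : ℝ) + 2 := by push_cast; ring
      rw [h9]
      have h10 : 0 ≤ bE (u - k) (ph s h (u - k)) := by
        have := bE_mono (u - k) (fun _ => 0) (ph s h (u - k)) (fun m => ph_nonneg s h (u - k) m)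
        rwa [Pool.Agent.Q74.AR.bE_const] at this
      gcongr
    refine (Finset.sum_le_sum h1).trans ?_
    rw [Finset.sum_const, card_range, nsmul_eq_mul]
    have h2 : ((u + 1 : ℕ) : ℝ) ≤ 43 * (l + 1) := by
      push_cast
      linarith
    have h3 : (u : ℝ) + 1 ≤ 43 * (l + 1) := by linarith
    have h4 : (u : ℝ) + 2 ≤ 43 * (l + 1) := by linarith
    have h5 : (0 : ℝ) ≤ u := Nat.cast_nonneg u
    calc ((u + 1 : ℕ) : ℝ) * (((u : ℝ) + 1) * (((u : ℝ) + 2) * (2 * Real.exp (-(η ^ 2 / 86 * l)))))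
        ≤ (43 * (l + 1)) * ((43 * (l + 1)) * ((43 * (l + 1)) * (2 * Real.exp (-(η ^ 2 / 86 * l))))) := by
          gcongr
      _ = 2 * 43 ^ 3 * (l + 1) ^ 3 * Real.exp (-(η ^ 2 / 86 * l)) := by ring
  have hc1 := hl1 l hlA
  have hc2 := hl2' l hlB
  have hc3 := hl3' l hlC
  have hd1 : ((L : ℝ) ^ σ)⁻¹ * (L * (C * (L : ℝ) ^ (th α₂ - 1) + (α₁ * l + 1) * (L : ℝ) ^ (th α₁ - 1))) ≤
      C * (l + 1) ^ 0 * Real.exp (-((σ - th α₂) * l)) +
        (α₁ + 1) * (l + 1) ^ 1 * Real.exp (-((σ - th α₁) * l)) := by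
    have e : ∀ t : ℝ, ((L : ℝ) ^ σ)⁻¹ * L * (L : ℝ) ^ (t - 1) = Real.exp (-((σ - t) * l)) := by
      intro t
      rw [← Real.rpow_neg hL0.le]
      nth_rewrite 2 [← Real.rpow_one (L : ℝ)]
      rw [← Real.rpow_add hL0, ← Real.rpow_add hL0, Real.rpow_def_of_pos hL0, ← hl]
      congr 1
      ring
    have e2 : ((L : ℝ) ^ σ)⁻¹ * (L * (C * (L : ℝ) ^ (th α₂ - 1) + (α₁ * l + 1) * (L : ℝ) ^ (th α₁ - 1))) =
        C * (((L : ℝ) ^ σ)⁻¹ * L * (L : ℝ) ^ (th α₂ - 1)) +
          (α₁ * l + 1) * (((L : ℝ) ^ σ)⁻¹ * L * (L : ℝ) ^ (th α₁ - 1)) := by ring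
    rw [e2, e, e, pow_zero, pow_one, mul_one]
    have e3 : α₁ * l + 1 ≤ (α₁ + 1) * (l + 1) := by nlinarith
    gcongr
  have hd2 := mul_le_mul_of_nonneg_left hb2 (inv_nonneg.2 hLσ.le)
  linarith

end Pool.Agent.Q190.BT
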